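import Pool.Agent.N874.QM.Stm
import Pool.Agent.N721.PP.GF

/-!
# Project QM (helper874), part GFC: consequences of `SelC` (helper713)

The proof is the one of `Pool.Agent.N650.PM.gfr` (helper650) and `Pool.Agent.N721.PP.gf` (helper721),
with all the completions and all the real embeddings.
-/

set_option autoImplicit false
set_option linter.all false

open Polynomial IsDedekindDomain NumberField WeierstrassCurve WeierstrassCurve.Affine
open Pool.Agent.TH115.GD Pool.Agent.N874.PP
open scoped Classical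

namespace Pool.Agent.N713.QM

open Pool.Agent.N721.PP Pool.Agent.N874.QM

section general

variable {M : Type} [Field M]

theorem cobLocF (W : WeierstrassCurve M) (F : Type) [Field F] [Algebra M F] (Q : Pt W (Sep M)) :
    LocTriv W F (Sep F) (fun σ : Sep M ≃ₐ[M] Sep M => act W (rs M σ) Q - Q) := by
  haveI : Algebra.IsSeparable M (Sep M) := IsSepClosure.separable
  let ι : Sep M →ₐ[M] Sep F := IsSepClosed.lift
  refine ⟨ι, act W (ι.restrictScalars M) Q, fun τ σ hτ => ?_⟩
  have h5 : (ι.restrictScalars M).comp (rs M σ) = (rs M τ).comp (ι.restrictScalars M) :=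
    AlgHom.ext fun x => (hτ x).symm
  rw [map_sub, act_act, act_act, h5]

end general

variable {M : Type} [Field M] [NumberField M]

theorem isLoc_cob (W : WeierstrassCurve M) (Q : Pt W (Sep M)) :
    IsLoc W (fun σ : Sep M ≃ₐ[M] Sep M => act W (rs M σ) Q - Q) where
  fin := fun w => cobLocF W _ Q
  real := fun ρ => by
    letI := ρ.toAlgebra
    exact cobLocF W ℝ Q

theorem isLoc_sub {W : WeierstrassCurve M} {f : (Sep M ≃ₐ[M] Sep M) → Pt W (Sep M)}
    (h : IsLoc W f) (S : Pt W (Sep M)) :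
    IsLoc W (fun σ => f σ - (act W (rs M σ) S - S)) where
  fin := fun w => LocTriv.sub _ (h.fin w) S
  real := fun ρ => by
    letI := ρ.toAlgebra
    exact LocTriv.sub _ (h.real ρ) S

theorem isLoc_smul {W : WeierstrassCurve M} {f : (Sep M ≃ₐ[M] Sep M) → Pt W (Sep M)}
    (h : IsLoc W f) (n : ℕ) : IsLoc W (fun σ => n • f σ) where
  fin := fun w => ltSmul (h.fin w) n
  real := fun ρ => by
    letI := ρ.toAlgebra
    exact ltSmul (h.real ρ) n

theorem gf_aux {A B : M} (h6 : (6 : M) ≠ 0) (hd : 4 * A ^ 3 + 27 * B ^ 2 ≠ 0)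
    (hS : SelC (sW A B)) :
    (∀ P : Pt (sW A B) M, ∃ Q : Pt (sW A B) M, P = (2 : ℕ) • Q) ∧ ShaC (sW A B) := by
  haveI : Algebra.IsSeparable M (Sep M) := IsSepClosure.separable
  haveI : IsGalois M (Sep M) := inferInstance
  constructor
  · intro P
    obtain ⟨Q0, hR⟩ := half h6 hd (act (sW A B) (incl M M (Sep M)) P)
    have hfix : ∀ σ : Sep M ≃ₐ[M] Sep M, act (sW A B) (rs M σ) (Q0 + Q0) = Q0 + Q0 := fun σ => by
      rw [hR]; exact rs_act_incl _ σ P
    obtain ⟨T, hT2, hT⟩ := hS (fun σ => act (sW A B) (rs M σ) Q0 - Q0) (cob_isCoc _ Q0)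
      (fun σ => by
        rw [two_nsmul, sub_add_sub_comm, ← map_add, hfix, sub_self])
      (isLoc_cob _ Q0)
    obtain ⟨Q, hQ⟩ := fixed_point (K := M) (F := M) (sW A B) (Q0 - T) (fun σ => by
      have h1 := hT σ
      rw [map_sub]
      have h2 : act (sW A B) (rs M σ) Q0 = Q0 + (act (sW A B) (rs M σ) T - T) := by
        rw [← h1]; abel
      rw [h2]; abel)
    refine ⟨Q, act_inj (sW A B) (incl M M (Sep M)) ?_⟩
    rw [map_nsmul, hQ, smul_sub, hT2, sub_zero, two_nsmul, hR]
  · have key : ∀ g : (Sep M ≃ₐ[M] Sep M) → Pt (sW A B) (Sep M), IsCoc (sW A B) g →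
        IsLoc (sW A B) g →
        (∃ Q : Pt (sW A B) (Sep M), ∀ σ, 2 • g σ = act (sW A B) (rs M σ) Q - Q) →
        ∃ Q : Pt (sW A B) (Sep M), ∀ σ, g σ = act (sW A B) (rs M σ) Q - Q := by
      rintro g hg hl ⟨Q, hR⟩
      obtain ⟨S, hS'⟩ := half h6 hd Q
      obtain ⟨T, -, hT⟩ := hS (fun σ => g σ - (act (sW A B) (rs M σ) S - S))
        (hg.sub _ (cob_isCoc _ _))
        (fun σ => by
          rw [smul_sub, hR, two_nsmul, sub_add_sub_comm, ← map_add, hS', sub_self])
        (isLoc_sub hl S)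
      refine ⟨T + S, fun σ => ?_⟩
      have h1 := hT σ
      have h2 : g σ = (act (sW A B) (rs M σ) T - T) + (act (sW A B) (rs M σ) S - S) := by
        rw [← h1]; abel
      rw [h2, map_add]
      abel
    intro f hf hl ⟨n, hn⟩
    induction n with
    | zero =>
      obtain ⟨Q, hR⟩ := hn
      exact ⟨Q, fun σ => by rw [← hR, pow_zero, one_smul]⟩
    | succ n ih =>
      apply ih
      refine key (fun σ => 2 ^ n • f σ) ?_ ?_ ?_
      · refine ⟨hf.lc.comp (fun a => 2 ^ n • a), fun σ τ => ?_⟩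
        show 2 ^ n • f (σ * τ) = 2 ^ n • f σ + act (sW A B) (rs M σ) (2 ^ n • f τ)
        rw [hf.mul, map_nsmul, smul_add]
      · exact isLoc_smul hl _
      · obtain ⟨Q, hR⟩ := hn
        refine ⟨Q, fun σ => ?_⟩
        rw [← hR, pow_succ', mul_smul]

/-- **QM-GFC** -/
theorem gfc : S_GFC := by
  intro M _ _ A B hd hS
  haveI : CharZero M := inferInstance
  exact gf_aux (by norm_num) hd hS

end Pool.Agent.N713.QM
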